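import Pool.Agent.OrbPoly.Stratum

set_option autoImplicit false

open Set OrbPoly

namespace Pool.Agent.Results.MP_6361d2_co.Disproof

/-- The assertion of Q1: whenever all strata of a finite group `Γ ⊂ O(k)` are submanifolds, the
function `λ₁` is continuous and attains a global minimum on every stratum on which the orbit
polytopes are `k`-dimensional. -/
def Q1 : Prop :=
  ∀ k : ℕ, 2 ≤ k → ∀ r : ℝ, 0 < r → ∀ Γ : Subgroup (E k ≃ₗᵢ[ℝ] E k), Finite Γ →
    (∀ S, IsStratum Γ r S → IsSubmanifold S) →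
    ∀ S, IsStratum Γ r S → (∀ w ∈ S, (interior (Q Γ w)).Nonempty) →
      ContinuousOn (lambda1 Γ) S ∧ ∃ w ∈ S, IsMinOn (lambda1 Γ) S w

/-- Q1 is false: there is a finite group `Γ ⊂ O(5)` such that, for every radius `r > 0`, all strata
of `Γ` in the sphere of radius `r` are submanifolds, and there is a stratum `S` of
`5`-dimensional orbit polytopes on which the infimum of `λ₁` equals `1/5` and is not attained. -/
theorem result :
    (∃ Γ : Subgroup (E 5 ≃ₗᵢ[ℝ] E 5), Finite Γ ∧ ∀ r : ℝ, 0 < r →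
      (∀ S, IsStratum Γ r S → IsSubmanifold S) ∧
      ∃ S, IsStratum Γ r S ∧ (∀ w ∈ S, (interior (Q Γ w)).Nonempty) ∧
        IsGLB (lambda1 Γ '' S) (1 / 5) ∧ ∀ w ∈ S, 1 / 5 < lambda1 Γ w) ∧
    ¬ Q1 := by
  have main : ∀ r : ℝ, 0 < r →
      (∀ S, IsStratum Gam r S → IsSubmanifold S) ∧
      ∃ S, IsStratum Gam r S ∧ (∀ w ∈ S, (interior (Q Gam w)).Nonempty) ∧
        IsGLB (lambda1 Gam '' S) (1 / 5) ∧ ∀ w ∈ S, 1 / 5 < lambda1 Gam w := by
    intro r hr
    exact ⟨fun S hS => isSubmanifold_of_isStratum hr hS, St r, isStratum_St hr,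
      fun w hw => interior_Q (St_subset hr hw), isGLB_St hr,
      fun w hw => (lt_lambda1 (St_subset hr hw)).2⟩
  refine ⟨⟨Gam, inferInstance, main⟩, fun hQ => ?_⟩
  obtain ⟨hsub, S, hS, hint, hglb, hlt⟩ := main 1 one_pos
  obtain ⟨-, w, hw, hmin⟩ := hQ 5 (by norm_num) 1 one_pos Gam inferInstance hsub S hS hint
  have hle : lambda1 Gam w ≤ 1 / 5 := by
    refine hglb.2 ?_
    rintro _ ⟨w', hw', rfl⟩
    exact hmin hw'
  exact absurd (hlt w hw) (not_lt.2 hle)

end Pool.Agent.Results.MP_6361d2_co.Disproof
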